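import Mathlib
import Pool.Agent.TH528.DiamTwo.Upper

set_option autoImplicit false

/-!
# The minimum size of graphs of diameter two with a linear degree cap: the limit need not exist
-/

namespace Pool.Agent.Results.MP_5980c2_co.NoLimit

open Filter Topology

/-- The sizes (numbers of edges) of the finite simple graphs of order `n` whose diameter is at
most `d` and all of whose degrees are at most `k`. -/
def sizes (d n : ℕ) (k : ℝ) : Set ℕ :=
  {m | ∃ (V : Type) (_ : Fintype V) (G : SimpleGraph V), Fintype.card V = n ∧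
    G.ediam ≤ d ∧ (∀ v, ((G.neighborSet v).ncard : ℝ) ≤ k) ∧ G.edgeSet.ncard = m}

/-- `e_d(n, k)`: the least size of a graph of order `n`, diameter at most `d` and maximum degree
at most `k`. -/
noncomputable def minSize (d n : ℕ) (k : ℝ) : ℕ := sInf (sizes d n k)

open Pool.Agent.TH528.DiamTwo in
lemma mem_sizes {V : Type} [Fintype V] (G : SimpleGraph V) [DecidableRel G.Adj] {n : ℕ} {k : ℝ}
    (hn : Fintype.card V = n) (h : D2 G) (hdeg : ∀ v, (G.degree v : ℝ) ≤ k) :
    G.edgeFinset.card ∈ sizes 2 n k := by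
  refine ⟨V, inferInstance, G, hn, ediam_of_d2 G h, ?_, ?_⟩
  · intro v
    have : (G.neighborSet v).ncard = G.degree v := by
      rw [← G.card_neighborSet_eq_degree, Set.ncard_eq_toFinset_card', Set.toFinset_card]
    rw [this]
    exact hdeg v
  · rw [← SimpleGraph.coe_edgeFinset, Set.ncard_coe_finset]

open Pool.Agent.TH528.DiamTwo in
lemma sizes_nonempty {n : ℕ} (hn : 70 ≤ n) : (sizes 2 n (3 / 7 * n)).Nonempty := by
  refine ⟨_, mem_sizes (PG n) (by simp) (PG_d2 (by omega)) ?_⟩
  intro v
  have h1 := PG_degree n v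
  have h2 : 7 * (PG n).degree v ≤ 3 * n := by omega
  have h3 : (7 : ℝ) * ((PG n).degree v : ℝ) ≤ 3 * n := by exact_mod_cast h2
  linarith

open Pool.Agent.TH528.DiamTwo in
/-- For `n` divisible by `7` the minimum is at most `3 n`. -/
lemma minSize_le (m : ℕ) :
    (minSize 2 (7 * m + 7) (3 / 7 * ((7 * m + 7 : ℕ) : ℝ)) : ℝ) ≤ 3 * ((7 * m + 7 : ℕ) : ℝ) := by
  have h1 : minSize 2 (7 * m + 7) (3 / 7 * ((7 * m + 7 : ℕ) : ℝ)) ≤ (FG m).edgeFinset.card := by
    apply Nat.sInf_le
    apply mem_sizes
    · simp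
      ring
    · exact FG_d2 m
    · intro v
      have h2 : (FG m).degree v ≤ 3 * m + 3 := by
        rcases v with i | q
        · exact FG_degree_inl m i
        · have := FG_degree_inr m q
          omega
      have h3 : ((FG m).degree v : ℝ) ≤ 3 * m + 3 := by exact_mod_cast h2
      push_cast
      linarith
  have h2 := FG_edges m
  have h3 : minSize 2 (7 * m + 7) (3 / 7 * ((7 * m + 7 : ℕ) : ℝ)) ≤ 3 * (7 * m + 7) := by omega
  exact_mod_cast h3

open Pool.Agent.TH528.DiamTwo in
/-- For large `n` congruent to `2` modulo `7` the minimum is greater than `3.01 n`. -/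
lemma lt_minSize (m : ℕ) (hm : 300000 ≤ m) :
    3.01 * ((7 * m + 2 : ℕ) : ℝ) ≤
      (minSize 2 (7 * m + 2) (3 / 7 * ((7 * m + 2 : ℕ) : ℝ)) : ℝ) := by
  classical
  have hne := sizes_nonempty (n := 7 * m + 2) (by omega)
  obtain ⟨V, hV, G, hn, hdiam, hdeg, hsize⟩ := Nat.sInf_mem hne
  have hd : ∀ v, 7 * G.degree v + 6 ≤ 3 * (7 * m + 2) := by
    intro v
    have h1 : (G.neighborSet v).ncard = G.degree v := by
      rw [← G.card_neighborSet_eq_degree, Set.ncard_eq_toFinset_card', Set.toFinset_card]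
    have h2 := hdeg v
    rw [h1] at h2
    have h3 : (7 : ℝ) * (G.degree v : ℝ) ≤ 3 * ((7 * m + 2 : ℕ) : ℝ) := by linarith
    have h4 : 7 * G.degree v ≤ 3 * (7 * m + 2) := by exact_mod_cast h3
    omega
  have h1 := lower G hn (by omega) (d2_of_ediam G hdiam) hd
  have h2 : G.edgeFinset.card = minSize 2 (7 * m + 2) (3 / 7 * ((7 * m + 2 : ℕ) : ℝ)) := by
    rw [minSize, ← hsize, ← SimpleGraph.coe_edgeFinset, Set.ncard_coe_finset]
  rw [h2] at h1
  have h3 : (301 : ℝ) * ((7 * m + 2 : ℕ) : ℝ) ≤
      100 * (minSize 2 (7 * m + 2) (3 / 7 * ((7 * m + 2 : ℕ) : ℝ)) : ℝ) := by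
    exact_mod_cast h1.le
  linarith

/-- For `c = 3 / 7` graphs of order `n`, diameter at most two and maximum degree at most `c n`
exist for all large `n`, but the sequence `e_2(n, c n) / n` has no limit, not even in the
extended reals. -/
theorem result :
    (∀ᶠ n : ℕ in atTop, (sizes 2 n (3 / 7 * n)).Nonempty) ∧
      ¬ ∃ L : EReal, Tendsto (fun n : ℕ => (((minSize 2 n (3 / 7 * n) : ℝ) / n : ℝ) : EReal))
        atTop (𝓝 L) := by
  refine ⟨?_, ?_⟩
  · filter_upwards [eventually_ge_atTop 70] with n hn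
    exact sizes_nonempty hn
  · rintro ⟨L, hL⟩
    have t1 : Tendsto (fun m : ℕ => 7 * m + 7) atTop atTop :=
      tendsto_atTop_mono (fun m => by simp only [id]; omega) tendsto_id
    have t2 : Tendsto (fun m : ℕ => 7 * m + 2) atTop atTop :=
      tendsto_atTop_mono (fun m => by simp only [id]; omega) tendsto_id
    have h1 : L ≤ ((3 : ℝ) : EReal) := by
      refine le_of_tendsto' (hL.comp t1) ?_
      intro m
      simp only [Function.comp]
      rw [EReal.coe_le_coe_iff, div_le_iff₀ (by positivity)]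
      exact minSize_le m
    have h2 : ((3.01 : ℝ) : EReal) ≤ L := by
      refine ge_of_tendsto (hL.comp t2) ?_
      filter_upwards [eventually_ge_atTop 300000] with m hm
      simp only [Function.comp]
      rw [EReal.coe_le_coe_iff, le_div_iff₀ (by positivity)]
      exact lt_minSize m hm
    have h3 := h2.trans h1
    rw [EReal.coe_le_coe_iff] at h3
    norm_num at h3

end Pool.Agent.Results.MP_5980c2_co.NoLimit
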